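import Pool.Agent.H67Z.TitchIdeal

set_option autoImplicit false

namespace Pool.Agent.Results.MP_97b573_an.AllBoundedWeights

/-- The space `ℓ¹(ℚ⁺, ω)`: functions on the positive rationals (extended by zero to all
rationals) that are summable against the weight. -/
def L1 (ω : ℚ → ℝ) : Set (ℚ → ℂ) :=
  {f | (∀ q : ℚ, q ≤ 0 → f q = 0) ∧ Summable (fun q : ℚ => ‖f q‖ * ω q)}

/-- Convolution. -/
noncomputable def conv (f g : ℚ → ℂ) : ℚ → ℂ := fun t => ∑' s : ℚ, f s * g (t - s)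

/-- Closed ideals of `ℓ¹(ℚ⁺, ω)`. -/
structure IsClosedIdeal (ω : ℚ → ℝ) (I : Set (ℚ → ℂ)) : Prop where
  subset : I ⊆ L1 ω
  zero_mem : (0 : ℚ → ℂ) ∈ I
  add_mem : ∀ f ∈ I, ∀ g ∈ I, f + g ∈ I
  smul_mem : ∀ c : ℂ, ∀ f ∈ I, c • f ∈ I
  conv_mem : ∀ a ∈ L1 ω, ∀ f ∈ I, conv a f ∈ I
  closed : ∀ f ∈ L1 ω,
    (∀ ε : ℝ, 0 < ε → ∃ g ∈ I, ∑' q : ℚ, ‖f q - g q‖ * ω q < ε) → f ∈ I

/-- Standard ideals: all elements supported in `(t, ∞)`, or all elements supported in `[t, ∞)`. -/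
def IsStandard (ω : ℚ → ℝ) (I : Set (ℚ → ℂ)) : Prop :=
  ∃ t : ℝ, 0 ≤ t ∧
    (I = {f | f ∈ L1 ω ∧ ∀ q : ℚ, f q ≠ 0 → t < (q : ℝ)} ∨
      I = {f | f ∈ L1 ω ∧ ∀ q : ℚ, f q ≠ 0 → t ≤ (q : ℝ)})

open Pool.Agent.H67Z.Titch in
theorem result (ω : ℚ → ℝ) (hpos : ∀ q : ℚ, 0 < q → 0 < ω q)
    (hsub : ∀ s t : ℚ, 0 < s → 0 < t → ω (s + t) ≤ ω s * ω t)
    (hbdd : ∃ δ : ℚ, 0 < δ ∧ ∃ C : ℝ, ∀ q : ℚ, 0 < q → q ≤ δ → ω q ≤ C) :
    ∃ I : Set (ℚ → ℂ), IsClosedIdeal ω I ∧ I ≠ {0} ∧ ¬ IsStandard ω I := by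
  obtain ⟨δ, hδ, C, hC⟩ := hbdd
  obtain ⟨D, hD⟩ := bounded_two hpos hsub hδ hC
  obtain ⟨hc0, hc⟩ := bounded_below hpos hsub hD
  obtain ⟨I, h1, h2, h3, h4, h5, h6, h7, h8⟩ := exists_ideal (N := fun q => q ≤ 0) (ω := ω)
    (fun _ hq => hq.le) (fun _ hq => hq)
    (fun s t hst => by
      by_contra hcon
      push Not at hcon
      linarith [hcon.1, hcon.2])
    (fun q hq => hpos q (not_le.1 hq))
    (fun s t hs ht => hsub s t (not_le.1 hs) (not_le.1 ht))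
    (C := D) (fun q a b => hD q a (by linarith)) hc0 (fun q a b => hc q (not_le.1 a) b)
  obtain ⟨h9, h10⟩ := not_standard (N := fun q => q ≤ 0) (ω := ω) (fun _ hq => hq) h7 h8
  refine ⟨I, ⟨h1, h2, h3, h4, fun a ha => h5 a ha.1 ha.2, fun f hf => h6 f hf.1 hf.2⟩, h9, ?_⟩
  rintro ⟨t, ht, h | h⟩
  · refine (h10 t ht).2 (h.trans ?_)
    ext f
    simp only [L1, Set.mem_ofPred_eq, and_assoc, ← not_le, not_imp_not]
  · refine (h10 t ht).1 (h.trans ?_)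
    ext f
    simp only [L1, Set.mem_ofPred_eq, and_assoc, ← not_lt, not_imp_not]

end Pool.Agent.Results.MP_97b573_an.AllBoundedWeights
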